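import Pool.Agent.Lib.MP_2fa2a2_gt.Graph

set_option autoImplicit false

open MeasureTheory Set Filter Topology Pointwise Module

namespace Pool.Agent.Lib.MP_2fa2a2_gt

variable {V : Type*} [NormedAddCommGroup V] [InnerProductSpace ℝ V] [FiniteDimensional ℝ V]
  [MeasurableSpace V] [BorelSpace V] {d : ℕ}

/-- intersection of finitely many half spaces -/
def poly (H : Finset (V × ℝ)) : Set V := {y | ∀ h ∈ H, inner ℝ h.1 y ≤ h.2}

/-- a facet (possibly lower dimensional or empty) -/
def fac (H : Finset (V × ℝ)) (h : V × ℝ) : Set V := poly H ∩ {y | inner ℝ h.1 y = h.2}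

omit [FiniteDimensional ℝ V] [MeasurableSpace V] [BorelSpace V] in
lemma poly_closed (H : Finset (V × ℝ)) : IsClosed (poly H) := by
  have : poly H = ⋂ h ∈ H, {y | inner ℝ h.1 y ≤ h.2} := by
    ext y; simp only [poly, mem_ofPred_eq, mem_iInter]
  rw [this]
  exact isClosed_biInter fun h _ => isClosed_le (by fun_prop) (by fun_prop)

omit [MeasurableSpace V] [BorelSpace V] in
lemma fac_compact {H : Finset (V × ℝ)} (hb : Bornology.IsBounded (poly H)) (h : V × ℝ) :
    IsCompact (fac H h) :=
  Metric.isCompact_of_isClosed_isBounded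
    ((poly_closed H).inter (isClosed_eq (by fun_prop) (by fun_prop))) (hb.subset inter_subset_left)

omit [FiniteDimensional ℝ V] [MeasurableSpace V] [BorelSpace V] in
lemma pr_add {v : V} (hv : ‖v‖ = 1) (y : V) (τ : ℝ) : pr v (y + τ • v) = pr v y := by
  simp [pr, inner_add_right, inner_smul_right, hv, add_smul]

omit [FiniteDimensional ℝ V] [MeasurableSpace V] [BorelSpace V] in
lemma indep_of_unit {a a' v : V} (ha : ‖a‖ = 1) (ha' : ‖a'‖ = 1) (hne : a ≠ a')
    (h : 0 < inner ℝ a v) (h' : 0 < inner ℝ a' v) : LinearIndependent ℝ ![a, a'] := by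
  have ha0 : a ≠ 0 := by rintro rfl; simp at ha
  rw [LinearIndependent.pair_iff' ha0]
  intro s hs
  have h1 : |s| = 1 := by
    have := congrArg norm hs
    rwa [norm_smul, ha, ha', mul_one] at this
  rw [← hs, inner_smul_left] at h'
  simp only [conj_trivial] at h'
  have h2 : 0 < s := (mul_pos_iff_of_pos_right h).1 h'
  rw [abs_of_pos h2] at h1
  exact hne (by rw [← hs, h1, one_smul])

open Classical in
theorem cauchy_ennreal (hd : finrank ℝ V = d + 1) {H : Finset (V × ℝ)} (hH : ∀ h ∈ H, ‖h.1‖ = 1)
    (hb : Bornology.IsBounded (poly H)) {v : V} (hv : ‖v‖ = 1) :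
    μH[d] (pr v '' poly H) =
      ∑ h ∈ H.filter (fun h => 0 < inner ℝ h.1 v), μH[d] (pr v '' fac H h) := by
  set P := H.filter (fun h => 0 < inner ℝ h.1 v) with hP
  have hU : pr v '' poly H = ⋃ h ∈ P, pr v '' fac H h := by
    apply Subset.antisymm
    · rintro _ ⟨k, hk, rfl⟩
      have hne : P.Nonempty := by
        by_contra hne
        rw [Finset.not_nonempty_iff_eq_empty, hP, Finset.filter_eq_empty_iff] at hne
        obtain ⟨R, hR⟩ := hb.exists_norm_le
        have hR0 : 0 ≤ R := (norm_nonneg _).trans (hR k hk)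
        have hmem : k + (2 * R + 1) • v ∈ poly H := by
          intro h hh
          have h1 := hk h hh
          have h2 := not_lt.1 (hne hh)
          rw [inner_add_right, inner_smul_right]
          nlinarith
        have h1 := hR _ hmem
        have h2 := hR _ hk
        have h3 : ‖(2 * R + 1) • v‖ ≤ ‖k + (2 * R + 1) • v‖ + ‖k‖ := by
          simpa using norm_sub_le (k + (2 * R + 1) • v) k
        rw [norm_smul, hv, Real.norm_eq_abs, abs_of_pos (by linarith)] at h3
        linarith
      obtain ⟨h0, hh0, hmin⟩ := Finset.exists_min_image P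
        (fun h => (h.2 - inner ℝ h.1 k) / inner ℝ h.1 v) hne
      obtain ⟨hh0H, hh0v⟩ := Finset.mem_filter.1 hh0
      set τ := (h0.2 - inner ℝ h0.1 k) / inner ℝ h0.1 v with hτ
      have hτ0 : 0 ≤ τ := div_nonneg (sub_nonneg.2 (hk h0 hh0H)) hh0v.le
      simp only [mem_iUnion]
      refine ⟨h0, hh0, k + τ • v, ⟨?_, ?_⟩, pr_add hv k τ⟩
      · intro h hh
        rw [inner_add_right, inner_smul_right]
        by_cases hpos : 0 < inner ℝ h.1 v
        · have := hmin h (Finset.mem_filter.2 ⟨hh, hpos⟩)
          rw [le_div_iff₀ hpos] at this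
          linarith
        · have := hk h hh
          nlinarith [not_lt.1 hpos]
      · simp only [mem_ofPred_eq, inner_add_right, inner_smul_right, hτ]
        field_simp
        ring
    · simp only [iUnion_subset_iff]
      intro h _
      exact image_mono inter_subset_left
  rw [hU, measure_biUnion_finset₀]
  · intro h hh h' hh' hne
    obtain ⟨hhH, hhv⟩ := Finset.mem_filter.1 hh
    obtain ⟨hhH', hhv'⟩ := Finset.mem_filter.1 hh'
    have hsub : pr v '' fac H h ∩ pr v '' fac H h' ⊆ pr v '' (fac H h ∩ fac H h') := by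
      rintro _ ⟨⟨y, hy, rfl⟩, ⟨y', hy', e⟩⟩
      have e1 : y' = y + (inner ℝ v y' - inner ℝ v y) • v := by
        simp only [pr] at e
        rw [sub_smul, ← add_sub_assoc, add_sub_right_comm, ← e]
        abel
      set τ := inner ℝ v y' - inner ℝ v y
      have a1 := hy'.1 h hhH
      have a2 := hy.1 h' hhH'
      have a3 : inner ℝ h.1 y = h.2 := hy.2
      have a4 : inner ℝ h'.1 y' = h'.2 := hy'.2
      rw [e1, inner_add_right, inner_smul_right] at a1 a4
      have t1 : τ ≤ 0 := by nlinarith
      have t2 : 0 ≤ τ := by nlinarith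
      have t3 : τ = 0 := le_antisymm t1 t2
      rw [t3, zero_smul, add_zero] at e1
      exact ⟨y, ⟨hy, e1 ▸ hy'⟩, rfl⟩
    refine measure_mono_null hsub ?_
    have hnull : μH[d] (fac H h ∩ fac H h') = 0 := by
      by_cases h1 : h.1 = h'.1
      · have : fac H h ∩ fac H h' = ∅ := by
          rw [eq_empty_iff_forall_notMem]
          rintro y ⟨hy, hy'⟩
          have a3 : inner ℝ h.1 y = h.2 := hy.2
          have a4 : inner ℝ h'.1 y = h'.2 := hy'.2
          exact hne (Prod.ext h1 (by rw [← a3, ← a4, h1]))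
        simp [this]
      · exact meas_codim_two hd (indep_of_unit (hH h hhH) (hH h' hhH') h1 hhv hhv')
          (fun y hy => ⟨hy.1.2, hy.2.2⟩)
    rw [meas_eq_pr hd hv hhv.ne' (t := h.2) (fun y hy => hy.1.2), mul_eq_zero] at hnull
    refine hnull.resolve_left ?_
    rw [hH h hhH]
    simpa using hhv.ne'
  · intro h _
    have : IsCompact (pr v '' fac H h) := (fac_compact hb h).image (by unfold pr; fun_prop)
    exact this.measurableSet.nullMeasurableSet

/-- area vector of a facet -/
noncomputable def gen (d : ℕ) (H : Finset (V × ℝ)) (h : V × ℝ) : V :=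
  (μH[d] (fac H h)).toReal • h.1

/-- Cauchy projection formula for polytopes -/
theorem cauchy (hd : finrank ℝ V = d + 1) {H : Finset (V × ℝ)} (hH : ∀ h ∈ H, ‖h.1‖ = 1)
    (hb : Bornology.IsBounded (poly H)) {v : V} (hv : ‖v‖ = 1) :
    (μH[d] (pr v '' poly H)).toReal = ∑ h ∈ H, max 0 (inner ℝ (gen d H h) v) := by
  classical
  rw [cauchy_ennreal hd hH hb hv, ENNReal.toReal_sum
    (fun h _ => (meas_pr_lt_top hd hv (fac_compact hb h).isBounded).ne), Finset.sum_filter]
  apply Finset.sum_congr rfl
  intro h hh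
  rw [gen, inner_smul_left]
  simp only [conj_trivial]
  split_ifs with hpos
  · rw [meas_eq_pr hd hv hpos.ne' (t := h.2) (S := fac H h) (fun y hy => hy.2), hH h hh,
      ENNReal.toReal_mul, ENNReal.toReal_ofReal (by positivity), abs_of_pos hpos,
      max_eq_right (by positivity)]
    field_simp
  · rw [max_eq_left]
    exact mul_nonpos_of_nonneg_of_nonpos ENNReal.toReal_nonneg (not_lt.1 hpos)

end Pool.Agent.Lib.MP_2fa2a2_gt
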