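import Mathlib

set_option autoImplicit false

open MeasureTheory Set Filter Topology Pointwise

namespace Pool.Agent.Lib.MP_2fa2a2_gt

section Diff

variable {U : Type*} [NormedAddCommGroup U] [NormedSpace ℝ U] [FiniteDimensional ℝ U]
  [MeasurableSpace U] [BorelSpace U] (μ : Measure U) [μ.IsAddHaarMeasure]
  {ι : Type*} [Fintype ι] [Nonempty ι]

/-- the maximum of the perturbed functionals -/
noncomputable def GG (α : ι → U →L[ℝ] ℝ) (γ : ι → ℝ) (ω : U →L[ℝ] ℝ) (δ : ℝ) (y : U) : ℝ :=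
  Finset.univ.sup' Finset.univ_nonempty (fun i => α i y - δ * (γ i * ω y))

omit [FiniteDimensional ℝ U] [MeasurableSpace U] [BorelSpace U] in
lemma GG_le_iff (α : ι → U →L[ℝ] ℝ) (γ : ι → ℝ) (ω : U →L[ℝ] ℝ) (δ : ℝ) (y : U) (s : ℝ) :
    GG α γ ω δ y ≤ s ↔ ∀ i, α i y - δ * (γ i * ω y) ≤ s := by
  simp [GG, Finset.sup'_le_iff]

omit [FiniteDimensional ℝ U] [MeasurableSpace U] [BorelSpace U] in
lemma le_GG (α : ι → U →L[ℝ] ℝ) (γ : ι → ℝ) (ω : U →L[ℝ] ℝ) (δ : ℝ) (y : U) (i : ι) :
    α i y - δ * (γ i * ω y) ≤ GG α γ ω δ y :=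
  (GG_le_iff α γ ω δ y _).1 le_rfl i

omit [FiniteDimensional ℝ U] [MeasurableSpace U] [BorelSpace U] in
lemma GG_cont (α : ι → U →L[ℝ] ℝ) (γ : ι → ℝ) (ω : U →L[ℝ] ℝ) :
    Continuous (fun p : U × ℝ => GG α γ ω p.2 p.1) := by
  unfold GG
  apply Continuous.finset_sup'_apply
  intro i _
  fun_prop

omit [FiniteDimensional ℝ U] [MeasurableSpace U] [BorelSpace U] in
lemma GG_lip (α : ι → U →L[ℝ] ℝ) (γ : ι → ℝ) (ω : U →L[ℝ] ℝ) (M : ℝ) (hM : ∀ i, |γ i| ≤ M)
    (δ δ' : ℝ) (y : U) :
    GG α γ ω δ y ≤ GG α γ ω δ' y + M * |ω y| * |δ - δ'| := by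
  rw [GG_le_iff]
  intro i
  have h1 := le_GG α γ ω δ' y i
  have h2 : |(δ - δ') * (γ i * ω y)| ≤ M * |ω y| * |δ - δ'| := by
    rw [abs_mul, abs_mul, mul_comm]
    gcongr
    exact hM i
  have h3 := neg_abs_le ((δ - δ') * (γ i * ω y))
  nlinarith

omit [FiniteDimensional ℝ U] [MeasurableSpace U] [BorelSpace U] in
lemma GG_eventually (α : ι → U →L[ℝ] ℝ) (γ : ι → ℝ) (ω : U →L[ℝ] ℝ)
    (h1 : ∀ i j, α i = α j → γ i = γ j) (y : U) (hy : ∀ i j, α i y = α j y → α i = α j) :
    ∃ i, ∀ᶠ δ in 𝓝 (0 : ℝ), GG α γ ω δ y = α i y - δ * (γ i * ω y) := by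
  obtain ⟨i, -, hi⟩ := Finset.exists_max_image Finset.univ (fun i => α i y) Finset.univ_nonempty
  refine ⟨i, ?_⟩
  have : ∀ j, ∀ᶠ δ in 𝓝 (0 : ℝ), α j y - δ * (γ j * ω y) ≤ α i y - δ * (γ i * ω y) := by
    intro j
    rcases (hi j (Finset.mem_univ _)).eq_or_lt with h | h
    · have h' := hy _ _ h
      exact Eventually.of_forall fun δ => by rw [h1 _ _ h', h']
    · have hc1 : Continuous fun δ : ℝ => α j y - δ * (γ j * ω y) := by fun_prop
      have hc2 : Continuous fun δ : ℝ => α i y - δ * (γ i * ω y) := by fun_prop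
      have := hc1.continuousAt.eventually_lt (x₀ := (0 : ℝ)) hc2.continuousAt (by simpa using h)
      exact this.mono fun δ hδ => hδ.le
  filter_upwards [eventually_all.2 this] with δ hδ
  exact le_antisymm ((GG_le_iff α γ ω δ y _).2 hδ) (le_GG α γ ω δ y i)

/-- hyperplanes are null -/
lemma null_hyp (f : U →L[ℝ] ℝ) (hf : f ≠ 0) (s : ℝ) : μ {y | f y = s} = 0 := by
  let A : AffineSubspace ℝ U := (AffineSubspace.mk' s ⊥).comap f.toLinearMap.toAffineMap
  have hA : (A : Set U) = {y | f y = s} := by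
    ext y
    simp [A, AffineSubspace.mem_mk', sub_eq_zero]
  rw [← hA]
  apply Measure.addHaar_affineSubspace
  intro htop
  apply hf
  have hall : ∀ y, f y = s := by
    intro y
    have : y ∈ (A : Set U) := by rw [htop]; trivial
    rw [hA] at this
    exact this
  ext y
  have h0 := hall 0
  simp at h0
  simp [hall y, ← h0]

theorem diff_core (α : ι → U →L[ℝ] ℝ) (γ : ι → ℝ) (ω : U →L[ℝ] ℝ)
    (h0 : ∃ i, α i = 0 ∧ γ i = 0)
    (h1 : ∀ i j, α i = α j → γ i = γ j)
    (h3 : Bornology.IsBounded {y | ∀ i, α i y ≤ 1}) :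
    DifferentiableAt ℝ (fun δ : ℝ => μ.real {y | ∀ i, α i y - δ * (γ i * ω y) ≤ 1}) 0 := by
  obtain ⟨i0, hi0, hγ0⟩ := h0
  have hGnn : ∀ δ y, 0 ≤ GG α γ ω δ y := fun δ y => by
    simpa [hi0, hγ0] using le_GG α γ ω δ y i0
  obtain ⟨R0, hR0pos, hR0⟩ := h3.subset_ball_lt 0 0
  obtain ⟨M, hM⟩ : ∃ M : ℝ, ∀ i, |γ i| ≤ M := by
    obtain ⟨M, hM⟩ := (Set.finite_range fun i => |γ i|).bddAbove
    exact ⟨M, fun i => hM ⟨i, rfl⟩⟩
  have hMnn : 0 ≤ M := (abs_nonneg _).trans (hM i0)
  have hlow : ∀ y, ‖y‖ / R0 ≤ GG α γ ω 0 y := by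
    intro y
    rcases eq_or_ne y 0 with rfl | hy
    · simpa using hGnn 0 0
    have hn : 0 < ‖y‖ := norm_pos_iff.2 hy
    have : (R0 / ‖y‖) • y ∉ {y | ∀ i, α i y ≤ 1} := by
      intro h
      have := hR0 h
      rw [mem_ball_zero_iff, norm_smul, Real.norm_eq_abs, abs_of_pos (by positivity),
        div_mul_cancel₀ _ hn.ne'] at this
      exact lt_irrefl _ this
    simp only [mem_ofPred_eq, not_forall, not_le, map_smul, smul_eq_mul] at this
    obtain ⟨i, hi⟩ := this
    have h := le_GG α γ ω 0 y i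
    simp only [zero_mul, sub_zero] at h
    refine le_trans ?_ h
    rw [div_le_iff₀ hR0pos]
    rw [div_mul_eq_mul_div, lt_div_iff₀ hn] at hi
    linarith
  set C : ℝ := M * ‖ω‖ + 1 with hC
  have hCpos : 0 < C := by positivity
  set δ0 : ℝ := 1 / (2 * R0 * C) with hδ0
  have hδ0pos : 0 < δ0 := by positivity
  have hlow2 : ∀ δ, |δ| < δ0 → ∀ y, ‖y‖ / (2 * R0) ≤ GG α γ ω δ y := by
    intro δ hδ y
    have h := GG_lip α γ ω M hM 0 δ y
    have h2 : M * |ω y| * |0 - δ| ≤ ‖y‖ / (2 * R0) := by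
      have e1 : |ω y| ≤ ‖ω‖ * ‖y‖ := ω.le_opNorm y
      have e2 : M * |ω y| ≤ C * ‖y‖ := by
        have := norm_nonneg y
        calc M * |ω y| ≤ M * (‖ω‖ * ‖y‖) := by gcongr
          _ ≤ C * ‖y‖ := by rw [hC]; nlinarith
      rw [zero_sub, abs_neg]
      calc M * |ω y| * |δ| ≤ C * ‖y‖ * δ0 := by gcongr
        _ = ‖y‖ / (2 * R0) := by rw [hδ0]; field_simp
    have h3 := hlow y
    have h4 : ‖y‖ / R0 = ‖y‖ / (2 * R0) + ‖y‖ / (2 * R0) := by field_simp; ring
    linarith
  let F : ℝ → U → ℝ := fun δ y => max 0 (1 - GG α γ ω δ y)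
  have hFc : Continuous (fun p : U × ℝ => F p.2 p.1) :=
    continuous_const.max (continuous_const.sub (GG_cont α γ ω))
  have hFc' : ∀ δ, Continuous (F δ) := fun δ =>
    hFc.comp (continuous_id.prodMk continuous_const)
  have hF0 : ∀ δ, |δ| < δ0 → ∀ y, y ∉ Metric.closedBall (0 : U) (2 * R0) → F δ y = 0 := by
    intro δ hδ y hy
    rw [mem_closedBall_zero_iff, not_le] at hy
    have := hlow2 δ hδ y
    have h1 : 1 ≤ ‖y‖ / (2 * R0) := by rw [le_div_iff₀ (by positivity)]; linarith
    exact max_eq_left (by linarith)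
  have hFint : ∀ δ, |δ| < δ0 → Integrable (F δ) μ := by
    intro δ hδ
    apply (hFc' δ).integrable_of_hasCompactSupport
    exact HasCompactSupport.intro (isCompact_closedBall 0 (2 * R0)) (hF0 δ hδ)
  have hs : Metric.ball (0 : ℝ) δ0 ∈ 𝓝 (0 : ℝ) := Metric.ball_mem_nhds _ hδ0pos
  have hmem : ∀ δ ∈ Metric.ball (0 : ℝ) δ0, |δ| < δ0 := fun δ hδ => by simpa using hδ
  let bound : U → ℝ := (Metric.closedBall (0 : U) (2 * R0)).indicator fun _ => C * (2 * R0)
  have hae : ∀ᵐ y ∂μ, (∀ i j, α i y = α j y → α i = α j) ∧ ∀ i, α i y ≠ 1 := by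
    refine Eventually.and ?_ ?_
    · rw [eventually_all]
      intro i
      rw [eventually_all]
      intro j
      by_cases h : α i = α j
      · exact Eventually.of_forall fun _ _ => h
      · have := null_hyp μ (α i - α j) (sub_ne_zero.2 h) 0
        rw [← compl_mem_ae_iff] at this
        filter_upwards [this] with y hy hij
        exact absurd (by simp [hij]) hy
    · rw [eventually_all]
      intro i
      by_cases h : α i = 0
      · exact Eventually.of_forall fun y => by simp [h]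
      · have := null_hyp μ (α i) h 1
        rw [← compl_mem_ae_iff] at this
        filter_upwards [this] with y hy
        exact hy
  have key := hasDerivAt_integral_of_dominated_loc_of_lip (μ := μ) (F := F) (x₀ := (0 : ℝ))
    (bound := bound) (F' := fun y => deriv (fun δ => F δ y) 0) hs
    (Eventually.of_forall fun δ => (hFc' δ).aestronglyMeasurable)
    (hFint 0 (by simpa using hδ0pos))
    (((measurable_deriv_with_param (f := fun y δ => F δ y) hFc).comp
      (measurable_id.prodMk measurable_const)).aestronglyMeasurable)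
    (Eventually.of_forall fun y => by
      apply LipschitzOnWith.of_dist_le_mul
      intro δ hδ δ' hδ'
      by_cases hy : y ∈ Metric.closedBall (0 : U) (2 * R0)
      · have hb : bound y = C * (2 * R0) := by simp only [bound]; rw [indicator_of_mem hy]
        rw [hb, Real.coe_nnabs, abs_of_pos (by positivity), Real.dist_eq, Real.dist_eq]
        have e1 : |ω y| ≤ ‖ω‖ * ‖y‖ := ω.le_opNorm y
        have e3 : ‖y‖ ≤ 2 * R0 := mem_closedBall_zero_iff.1 hy
        have e2 : M * |ω y| ≤ C * (2 * R0) := by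
          calc M * |ω y| ≤ M * (‖ω‖ * (2 * R0)) := by
                gcongr
                exact e1.trans (by gcongr)
            _ ≤ C * (2 * R0) := by rw [hC]; nlinarith
        have l1 := GG_lip α γ ω M hM δ δ' y
        have l2 := GG_lip α γ ω M hM δ' δ y
        rw [abs_sub_comm δ' δ] at l2
        have e4 : M * |ω y| * |δ - δ'| ≤ C * (2 * R0) * |δ - δ'| := by gcongr
        refine le_trans (abs_max_sub_max_le_max _ _ _ _) ?_
        rw [sub_self, abs_zero]
        refine max_le (by positivity) ?_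
        rw [abs_le]
        constructor <;> linarith
      · simp only [hF0 δ (hmem δ hδ) y hy, hF0 δ' (hmem δ' hδ') y hy, dist_self]
        positivity)
    ((integrableOn_const (measure_closedBall_lt_top.ne)).integrable_indicator
      Metric.isClosed_closedBall.measurableSet)
    (by
      filter_upwards [hae] with y hy
      apply DifferentiableAt.hasDerivAt
      obtain ⟨i, hi⟩ := GG_eventually α γ ω h1 y hy.1
      have hc : Continuous fun δ : ℝ => 1 - (α i y - δ * (γ i * ω y)) := by fun_prop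
      rcases lt_or_gt_of_ne (hy.2 i) with h | h
      · have h2 := continuous_const.continuousAt.eventually_lt (x₀ := (0 : ℝ)) (f := fun _ => (0 : ℝ))
          hc.continuousAt (by simpa using h)
        have : (fun δ => F δ y) =ᶠ[𝓝 0] fun δ => 1 - (α i y - δ * (γ i * ω y)) := by
          filter_upwards [hi, h2] with δ e1 e2
          simp only [F, e1]
          exact max_eq_right e2.le
        refine DifferentiableAt.congr_of_eventuallyEq ?_ this
        fun_prop
      · have h2 := hc.continuousAt.eventually_lt (x₀ := (0 : ℝ)) (g := fun _ => (0 : ℝ))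
          continuous_const.continuousAt (by simpa using h)
        have : (fun δ => F δ y) =ᶠ[𝓝 0] fun _ => (0 : ℝ) := by
          filter_upwards [hi, h2] with δ e1 e2
          simp only [F, e1]
          exact max_eq_left e2.le
        refine DifferentiableAt.congr_of_eventuallyEq ?_ this
        fun_prop)
  set κ : ℝ := ∫ t in Ioc (0 : ℝ) 1, (1 - t) ^ Module.finrank ℝ U with hκ
  have hκpos : 0 < κ := by
    rw [hκ, ← intervalIntegral.integral_of_le zero_le_one,
      intervalIntegral.integral_comp_sub_left (fun t => t ^ Module.finrank ℝ U) 1]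
    simp only [sub_self, sub_zero, integral_pow]
    have : (1 : ℝ) ^ (Module.finrank ℝ U + 1) - 0 ^ (Module.finrank ℝ U + 1) = 1 := by simp
    rw [this]
    positivity
  have hcake : ∀ δ, |δ| < δ0 → ∫ y, F δ y ∂μ =
      κ * μ.real {y | ∀ i, α i y - δ * (γ i * ω y) ≤ 1} := by
    intro δ hδ
    rw [(hFint δ hδ).integral_eq_integral_Ioc_meas_le (M := 1)
      (Eventually.of_forall fun y => le_max_left _ _)
      (Eventually.of_forall fun y => max_le zero_le_one (by linarith [hGnn δ y])),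
      hκ, ← integral_mul_const, integral_Ioc_eq_integral_Ioo, integral_Ioc_eq_integral_Ioo]
    apply setIntegral_congr_fun measurableSet_Ioo
    intro t ht
    have h1t : 0 < 1 - t := by linarith [ht.2]
    have : {y | t ≤ F δ y} = (1 - t) • {y | ∀ i, α i y - δ * (γ i * ω y) ≤ 1} := by
      ext y
      rw [mem_smul_set_iff_inv_smul_mem₀ h1t.ne']
      simp only [mem_ofPred_eq, F, le_max_iff, not_le.2 ht.1, false_or, map_smul, smul_eq_mul]
      rw [le_sub_comm, GG_le_iff]
      refine forall_congr' fun i => ?_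
      rw [show (1 - t)⁻¹ * α i y - δ * (γ i * ((1 - t)⁻¹ * ω y))
        = (α i y - δ * (γ i * ω y)) / (1 - t) by field_simp, div_le_one h1t]
    simp only [this, Measure.real, Measure.addHaar_smul, ENNReal.toReal_mul]
    rw [ENNReal.toReal_ofReal (abs_nonneg _), abs_of_pos (by positivity)]
  have hd : DifferentiableAt ℝ (fun δ => κ⁻¹ * ∫ y, F δ y ∂μ) 0 :=
    key.2.differentiableAt.const_mul _
  refine hd.congr_of_eventuallyEq ?_
  filter_upwards [hs] with δ hδ
  rw [hcake δ (hmem δ hδ)]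
  field_simp

end Diff

/-- The volume of a polytope containing the origin in its interior is differentiable along a
perturbation of the constraints that respects coincidences. -/
theorem diff_vol {U : Type*} [NormedAddCommGroup U] [NormedSpace ℝ U] [FiniteDimensional ℝ U]
    [MeasurableSpace U] [BorelSpace U] (μ : Measure U) [μ.IsAddHaarMeasure]
    {ι : Type*} [Fintype ι] (α : ι → U →L[ℝ] ℝ) (γ : ι → ℝ) (ω : U →L[ℝ] ℝ)
    (h0 : ∀ i, α i = 0 → γ i = 0)
    (h1 : ∀ i j, α i = α j → γ i = γ j)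
    (h3 : Bornology.IsBounded {y | ∀ i, α i y ≤ 1}) :
    DifferentiableAt ℝ (fun δ : ℝ => μ.real {y | ∀ i, α i y - δ * (γ i * ω y) ≤ 1}) 0 := by
  have := diff_core μ (ι := Option ι) (fun o => o.elim 0 α) (fun o => o.elim 0 γ) ω
    ⟨none, rfl, rfl⟩ ?_ ?_
  · simpa [Option.forall] using this
  · rintro (_ | i) (_ | j) h
    · rfl
    · exact (h0 j h.symm).symm
    · exact h0 i h
    · exact h1 i j h
  · simpa [Option.forall] using h3

end Pool.Agent.Lib.MP_2fa2a2_gt
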