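import Mathlib

set_option autoImplicit false

open MeasureTheory Set Filter Topology Pointwise Module

namespace Pool.Agent.Lib.MP_2fa2a2_gt

variable {V : Type*} [NormedAddCommGroup V] [InnerProductSpace ℝ V] [FiniteDimensional ℝ V]
  [MeasurableSpace V] [BorelSpace V] {d : ℕ}

omit [MeasurableSpace V] [BorelSpace V] in
lemma finrank_perp (hd : finrank ℝ V = d + 1) {z : V} (hz : z ≠ 0) :
    finrank ℝ (ℝ ∙ z)ᗮ = d := by
  have h1 := (ℝ ∙ z).finrank_add_finrank_orthogonal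
  rw [finrank_span_singleton hz, hd] at h1
  omega

/-- the graph map over the hyperplane orthogonal to `z` -/
noncomputable def gr (z : V) (c : (ℝ ∙ z)ᗮ) : (ℝ ∙ z)ᗮ →ₗ[ℝ] V :=
  (ℝ ∙ z)ᗮ.subtype - (innerₗ _ c).smulRight z

omit [FiniteDimensional ℝ V] [MeasurableSpace V] [BorelSpace V] in
lemma gr_apply (z : V) (c y : (ℝ ∙ z)ᗮ) : gr z c y = (y : V) - inner ℝ (c : V) (y : V) • z := by
  simp [gr]

omit [FiniteDimensional ℝ V] [MeasurableSpace V] [BorelSpace V] in
lemma perp_inner {z : V} (y : (ℝ ∙ z)ᗮ) : inner ℝ z (y : V) = 0 :=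
  Submodule.mem_orthogonal_singleton_iff_inner_right.1 y.2

omit [MeasurableSpace V] [BorelSpace V] in
lemma normDet_gr {z : V} (hz : ‖z‖ = 1) (c : (ℝ ∙ z)ᗮ) :
    (gr z c).normDet = √(1 + ‖c‖ ^ 2) := by
  have h1 := (gr z c).normDet_sq
  have h2 : (gr z c).adjoint ∘ₗ gr z c = LinearMap.transvection (innerₗ _ c) c := by
    apply LinearMap.ext
    intro y
    apply ext_inner_left ℝ
    intro y'
    rw [LinearMap.comp_apply, LinearMap.adjoint_inner_right, gr_apply, gr_apply,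
      LinearMap.transvection.apply]
    have e1 := perp_inner y
    have e2 := perp_inner y'
    have e3 : inner ℝ (y' : V) z = 0 := by rw [real_inner_comm]; exact e2
    have e4 : inner ℝ z z = 1 := by rw [real_inner_self_eq_norm_sq, hz]; norm_num
    simp only [inner_sub_left, inner_sub_right, inner_add_right, inner_smul_left,
      inner_smul_right, e1, e3, e4, innerₗ_apply_apply, Submodule.coe_inner, conj_trivial]
    rw [real_inner_comm (c : V) (y' : V)]
    ring
  rw [h2, LinearMap.transvection.det] at h1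
  simp only [innerₗ_apply_apply, real_inner_self_eq_norm_sq, RCLike.ofReal_real_eq_id, id] at h1
  rw [← h1, Real.sqrt_sq (LinearMap.normDet_nonneg _)]

lemma meas_gr (hd : finrank ℝ V = d + 1) {z : V} (hz : ‖z‖ = 1) (c : (ℝ ∙ z)ᗮ) (p : V)
    (S : Set (ℝ ∙ z)ᗮ) :
    μH[d] ((fun y => p + gr z c y) '' S) = ENNReal.ofReal √(1 + ‖c‖ ^ 2) * μH[d] S := by
  have hz0 : z ≠ 0 := by rintro rfl; simp at hz
  have h := (gr z c).hausdorffMeasure_image S
  rw [finrank_perp hd hz0, normDet_gr hz] at h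
  rw [← h, ← image_image (fun y => p + y) (gr z c)]
  exact (Isometry.of_dist_eq (f := fun y : V => p + y) (by simp)).hausdorffMeasure_image
    (Or.inl (Nat.cast_nonneg d)) _

/-- orthogonal projection along a unit vector -/
def pr (z : V) : V → V := fun y => y - inner ℝ z y • z

omit [FiniteDimensional ℝ V] [MeasurableSpace V] [BorelSpace V] in
lemma pr_mem {z : V} (hz : ‖z‖ = 1) (y : V) : pr z y ∈ (ℝ ∙ z)ᗮ := by
  rw [Submodule.mem_orthogonal_singleton_iff_inner_right]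
  simp [pr, inner_sub_right, inner_smul_right, hz]

omit [FiniteDimensional ℝ V] in
lemma meas_coe {z : V} (S : Set (ℝ ∙ z)ᗮ) :
    μH[d] ((fun y : (ℝ ∙ z)ᗮ => (y : V)) '' S) = μH[d] S :=
  isometry_subtype_coe.hausdorffMeasure_image (Or.inl (Nat.cast_nonneg d)) _

omit [FiniteDimensional ℝ V] in
lemma meas_pr_eq {z : V} (hz : ‖z‖ = 1) (S : Set V) :
    μH[d] (pr z '' S) = μH[d] {y : (ℝ ∙ z)ᗮ | (y : V) ∈ pr z '' S} := by
  rw [← meas_coe]
  congr 1
  ext y
  constructor
  · rintro ⟨s, hs, rfl⟩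
    exact ⟨⟨pr z s, pr_mem hz s⟩, ⟨s, hs, rfl⟩, rfl⟩
  · rintro ⟨y, hy, rfl⟩
    exact hy

/-- a subset of a hyperplane versus its projection -/
lemma meas_eq_pr (hd : finrank ℝ V = d + 1) {z x : V} (hz : ‖z‖ = 1) (hx : inner ℝ x z ≠ 0)
    {t : ℝ} {S : Set V} (hS : ∀ y ∈ S, inner ℝ x y = t) :
    μH[d] S = ENNReal.ofReal (‖x‖ / |inner ℝ x z|) * μH[d] (pr z '' S) := by
  let c : (ℝ ∙ z)ᗮ := (inner ℝ x z)⁻¹ • ⟨pr z x, pr_mem hz x⟩
  have hzz : inner ℝ z z = 1 := by rw [real_inner_self_eq_norm_sq, hz]; norm_num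
  have hc : (c : V) = (inner ℝ x z)⁻¹ • (x - inner ℝ z x • z) := rfl
  have key : ∀ s ∈ S, (t / inner ℝ x z) • z + gr z c ⟨pr z s, pr_mem hz s⟩ = s := by
    intro s hs
    rw [gr_apply, hc]
    simp only [pr, inner_smul_left, inner_sub_left, inner_sub_right, inner_smul_right, hzz,
      hS s hs, conj_trivial]
    rw [real_inner_comm x z]
    have : (inner ℝ x z)⁻¹ * (t - inner ℝ x z * inner ℝ z s) -
        inner ℝ z s * ((inner ℝ x z)⁻¹ * (inner ℝ x z - inner ℝ x z * 1))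
        = t / inner ℝ x z - inner ℝ z s := by
      field_simp
      ring
    rw [this, sub_smul]
    abel
  have h1 : S = (fun y => (t / inner ℝ x z) • z + gr z c y) ''
      {y : (ℝ ∙ z)ᗮ | (y : V) ∈ pr z '' S} := by
    ext s
    constructor
    · intro hs
      exact ⟨⟨pr z s, pr_mem hz s⟩, ⟨s, hs, rfl⟩, key s hs⟩
    · rintro ⟨y, ⟨s', hs', hy⟩, rfl⟩
      have : y = ⟨pr z s', pr_mem hz s'⟩ := Subtype.ext hy.symm
      simp only [this, key s' hs']
      exact hs'
  have h2 : √(1 + ‖c‖ ^ 2) = ‖x‖ / |inner ℝ x z| := by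
    rw [Real.sqrt_eq_iff_mul_self_eq (by positivity) (by positivity)]
    have : ‖c‖ ^ 2 = inner ℝ (c : V) (c : V) := by rw [real_inner_self_eq_norm_sq]; rfl
    rw [this, hc]
    simp only [inner_smul_left, inner_sub_left, inner_sub_right, inner_smul_right, hzz,
      conj_trivial, real_inner_self_eq_norm_sq]
    rw [real_inner_comm x z, div_mul_div_comm, abs_mul_abs_self]
    field_simp
    ring
  conv_lhs => rw [h1]
  rw [meas_gr hd hz, h2, ← meas_pr_eq hz]

lemma haar_perp (hd : finrank ℝ V = d + 1) {z : V} (hz : z ≠ 0) :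
    (μH[d] : Measure (ℝ ∙ z)ᗮ).IsAddHaarMeasure := by
  have := isAddHaarMeasure_hausdorffMeasure (E := (ℝ ∙ z)ᗮ)
  rwa [finrank_perp hd hz] at this

lemma meas_pr_lt_top (hd : finrank ℝ V = d + 1) {z : V} (hz : ‖z‖ = 1) {S : Set V}
    (hS : Bornology.IsBounded S) : μH[d] (pr z '' S) < ⊤ := by
  have hz0 : z ≠ 0 := by rintro rfl; simp at hz
  have := haar_perp hd hz0
  rw [meas_pr_eq hz]
  apply Bornology.IsBounded.measure_lt_top
  obtain ⟨R, hR⟩ := hS.exists_norm_le
  rw [isBounded_iff_forall_norm_le]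
  refine ⟨R + R, ?_⟩
  rintro y ⟨s, hs, hy⟩
  have : ‖y‖ = ‖pr z s‖ := by rw [hy]; rfl
  rw [this, pr]
  refine (norm_sub_le _ _).trans (add_le_add (hR s hs) ?_)
  rw [norm_smul, hz, mul_one]
  refine (norm_inner_le_norm _ _).trans ?_
  rw [hz, one_mul]
  exact hR s hs

lemma meas_pr_pos (hd : finrank ℝ V = d + 1) {z : V} (hz : ‖z‖ = 1) {S : Set V}
    (hS : (interior S).Nonempty) : 0 < μH[d] (pr z '' S) := by
  have hz0 : z ≠ 0 := by rintro rfl; simp at hz
  have := haar_perp hd hz0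
  rw [meas_pr_eq hz]
  obtain ⟨p, hp⟩ := hS
  let g : (ℝ ∙ z)ᗮ → V := fun y => (y : V) + inner ℝ z p • z
  have hg : Continuous g := by fun_prop
  have hopen : IsOpen (g ⁻¹' interior S) := isOpen_interior.preimage hg
  have hne : (g ⁻¹' interior S).Nonempty := ⟨⟨pr z p, pr_mem hz p⟩, by simpa [g, pr] using hp⟩
  refine lt_of_lt_of_le (hopen.measure_pos _ hne) (measure_mono ?_)
  intro y hy
  refine ⟨g y, interior_subset hy, ?_⟩
  simp [g, pr, inner_add_right, inner_smul_right, perp_inner y, hz]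

lemma meas_hyp_lt_top (hd : finrank ℝ V = d + 1) {x : V} (hx : x ≠ 0) {t : ℝ} {S : Set V}
    (hS : ∀ y ∈ S, inner ℝ x y = t) (hb : Bornology.IsBounded S) : μH[d] S < ⊤ := by
  have hn : ‖x‖ ≠ 0 := norm_ne_zero_iff.2 hx
  have hz : ‖(‖x‖⁻¹ : ℝ) • x‖ = 1 := by rw [norm_smul]; simp [hn]
  rw [meas_eq_pr hd hz (by simp [inner_smul_right, hn]) hS]
  exact ENNReal.mul_lt_top ENNReal.ofReal_lt_top (meas_pr_lt_top hd hz hb)

omit [FiniteDimensional ℝ V] in
lemma meas_sub_null [FiniteDimensional ℝ V] (W : Submodule ℝ V) (hW : finrank ℝ W < d) (p : V)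
    {S : Set V} (hS : ∀ y ∈ S, y - p ∈ W) : μH[d] S = 0 := by
  have h0 : (μH[d] : Measure W) = 0 := Real.hausdorffMeasure_of_finrank_lt (by exact_mod_cast hW)
  have h1 : Isometry (fun y : W => p + (y : V)) := Isometry.of_dist_eq (by
    intro a b
    rw [dist_add_left]
    rfl)
  have h2 := h1.hausdorffMeasure_image (d := d) (Or.inl (Nat.cast_nonneg d)) univ
  rw [h0] at h2
  refine measure_mono_null ?_ h2
  intro y hy
  exact ⟨⟨y - p, hS y hy⟩, trivial, by simp⟩

/-- two independent linear equations cut out a null set -/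
lemma meas_codim_two (hd : finrank ℝ V = d + 1) {a a' : V} (h : LinearIndependent ℝ ![a, a'])
    {s s' : ℝ} {S : Set V} (hS : ∀ y ∈ S, inner ℝ a y = s ∧ inner ℝ a' y = s') :
    μH[d] S = 0 := by
  rcases S.eq_empty_or_nonempty with rfl | ⟨p, hp⟩
  · simp
  let W := Submodule.span ℝ (range ![a, a'])
  have hW : finrank ℝ W = 2 := by
    simpa using finrank_span_eq_card h
  have h1 := W.finrank_add_finrank_orthogonal
  refine meas_sub_null Wᗮ (by omega) p fun y hy => ?_
  rw [Submodule.mem_orthogonal]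
  intro u hu
  induction hu using Submodule.span_induction with
  | mem u hu =>
    obtain ⟨i, rfl⟩ := hu
    fin_cases i
    · simp [inner_sub_right, (hS y hy).1, (hS p hp).1]
    · simp [inner_sub_right, (hS y hy).2, (hS p hp).2]
  | zero => simp
  | add u v _ _ hu hv => simp [inner_add_left, hu, hv]
  | smul r u _ hu => simp [inner_smul_left, hu]

end Pool.Agent.Lib.MP_2fa2a2_gt
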