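import Mathlib

set_option autoImplicit false

open MeasureTheory Set Filter Topology Module

namespace Pool.Agent.Lib.MP_2fa2a2_gt

variable {V : Type*} [NormedAddCommGroup V] [InnerProductSpace ℝ V] [FiniteDimensional ℝ V]
  {κ : Type*}

/-- support function of the zonotope generated by the segments from `0` to `G h` -/
noncomputable def hh (H : Finset κ) (G : κ → V) (v : V) : ℝ := ∑ h ∈ H, max 0 (inner ℝ (G h) v)

omit [FiniteDimensional ℝ V] in
lemma hh_smul (H : Finset κ) (G : κ → V) (v : V) {t : ℝ} (ht : 0 ≤ t) :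
    hh H G (t • v) = t * hh H G v := by
  simp only [hh, Finset.mul_sum, inner_smul_right, mul_max_of_nonneg _ _ ht, mul_zero]

omit [FiniteDimensional ℝ V] in
lemma exists_pos_of_hh {H : Finset κ} {G : κ → V} {v : V} (h : 0 < hh H G v) :
    ∃ k ∈ H, 0 < inner ℝ (G k) v := by
  by_contra hne
  push Not at hne
  have : hh H G v = 0 := Finset.sum_eq_zero fun k hk => max_eq_left (hne k hk)
  linarith

lemma exists_not_mem_span {W : Submodule ℝ V} (hW : 2 ≤ finrank ℝ W) (v : V) :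
    ∃ w ∈ W, w ∉ (ℝ ∙ v) := by
  by_contra hne
  push Not at hne
  have h1 : finrank ℝ W ≤ finrank ℝ (ℝ ∙ v) := Submodule.finrank_mono hne
  have h2 : finrank ℝ (ℝ ∙ v) ≤ 1 := by
    simpa using finrank_span_le_card (R := ℝ) ({v} : Set V)
  omega

omit [FiniteDimensional ℝ V] in
lemma finrank_span_pair (a b : V) : finrank ℝ (Submodule.span ℝ {a, b}) ≤ 2 := by
  classical
  refine (finrank_span_le_card (R := ℝ) ({a, b} : Set V)).trans ?_
  simpa using Finset.card_le_two

omit [FiniteDimensional ℝ V] in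
lemma avoid (z0 g1 g2 : V) (hli : LinearIndependent ℝ ![z0, g1, g2]) (H : Finset κ) (a : κ → V) :
    ∃ s1 s2 : ℝ, s1 ∈ Ioo (0 : ℝ) 1 ∧ s2 ∈ Ioo (0 : ℝ) 1 ∧
      ∀ h ∈ H, ∀ h' ∈ H, z0 + s1 • g1 + s2 • g2 ∉ Submodule.span ℝ {a h, a h'} := by
  have hnull : ∀ h h', (volume : Measure (ℝ × ℝ))
      {s | z0 + s.1 • g1 + s.2 • g2 ∈ Submodule.span ℝ {a h, a h'}} = 0 := by
    intro h h'
    set S := Submodule.span ℝ {a h, a h'} with hS
    let L : ℝ × ℝ →ₗ[ℝ] V := (LinearMap.fst ℝ ℝ ℝ).smulRight g1 + (LinearMap.snd ℝ ℝ ℝ).smulRight g2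
    let f : ℝ × ℝ →ᵃ[ℝ] V := AffineMap.const ℝ _ z0 + L.toAffineMap
    let A : AffineSubspace ℝ (ℝ × ℝ) := S.toAffineSubspace.comap f
    have hA : (A : Set (ℝ × ℝ)) = {s | z0 + s.1 • g1 + s.2 • g2 ∈ S} := by
      ext s
      simp [A, f, L, add_assoc]
    rw [← hA]
    apply Measure.addHaar_affineSubspace
    intro htop
    have hall : ∀ s : ℝ × ℝ, z0 + s.1 • g1 + s.2 • g2 ∈ S := by
      intro s
      have : s ∈ (A : Set (ℝ × ℝ)) := by rw [htop]; trivial
      rw [hA] at this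
      exact this
    have h0 : z0 ∈ S := by simpa using hall (0, 0)
    have h1 : g1 ∈ S := by simpa using S.sub_mem (hall (1, 0)) h0
    have h2 : g2 ∈ S := by simpa using S.sub_mem (hall (0, 1)) h0
    have hm : ∀ i, ![z0, g1, g2] i ∈ S := by
      intro i
      fin_cases i
      · exact h0
      · exact h1
      · exact h2
    have hli' : LinearIndependent ℝ (fun i => (⟨![z0, g1, g2] i, hm i⟩ : S)) :=
      LinearIndependent.of_comp S.subtype hli
    have : Module.Finite ℝ S := Module.Finite.span_of_finite ℝ (toFinite _)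
    have h3 := hli'.fintype_card_le_finrank
    have h4 := finrank_span_pair (a h) (a h')
    rw [← hS] at h4
    simp at h3
    omega
  have hae : ∀ᵐ s ∂(volume : Measure (ℝ × ℝ)), ∀ h ∈ H, ∀ h' ∈ H,
      z0 + s.1 • g1 + s.2 • g2 ∉ Submodule.span ℝ {a h, a h'} := by
    rw [Finset.eventually_all]
    intro h _
    rw [Finset.eventually_all]
    intro h' _
    exact compl_mem_ae_iff.2 (hnull h h')
  have hpos : (volume : Measure (ℝ × ℝ)) (Ioo 0 1 ×ˢ Ioo 0 1) ≠ 0 :=
    ((isOpen_Ioo.prod isOpen_Ioo).measure_pos _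
      ⟨(1 / 2, 1 / 2), by constructor <;> constructor <;> norm_num⟩).ne'
  obtain ⟨s, hs, hs'⟩ := Measure.exists_mem_of_measure_ne_zero_of_ae hpos (ae_restrict_of_ae hae)
  exact ⟨s.1, s.2, hs.1, hs.2, hs'⟩

theorem zono (hV : 4 ≤ finrank ℝ V) (H : Finset κ) (G a : κ → V)
    (hpos : ∀ v, v ≠ 0 → 0 < hh H G v) :
    ∃ z v0 v1 : V, (∀ v, inner ℝ z v ≤ hh H G v) ∧ inner ℝ z v0 = 1 ∧ hh H G v0 = 1 ∧
      inner ℝ z v1 = 1 ∧ hh H G v1 = 1 ∧ v0 ≠ v1 ∧
      ∀ h ∈ H, ∀ h' ∈ H, z ∉ Submodule.span ℝ {a h, a h'} := by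
  classical
  have : Nontrivial V := Module.nontrivial_of_finrank_pos (R := ℝ) (by omega)
  obtain ⟨u, hu⟩ := exists_ne (0 : V)
  obtain ⟨h1, hh1, hh1u⟩ := exists_pos_of_hh (hpos u hu)
  have hG1 : G h1 ≠ 0 := by intro h; simp [h] at hh1u
  have hr1 := (ℝ ∙ G h1).finrank_add_finrank_orthogonal
  rw [finrank_span_singleton hG1] at hr1
  obtain ⟨u', hu', hu'0⟩ := exists_not_mem_span (W := (ℝ ∙ G h1)ᗮ) (by omega) 0
  have hu'1 : inner ℝ (G h1) u' = 0 := Submodule.mem_orthogonal_singleton_iff_inner_right.1 hu'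
  obtain ⟨h2, hh2, hh2u⟩ := exists_pos_of_hh (hpos u' (by rintro rfl; simp at hu'0))
  have h12 : h1 ≠ h2 := by rintro rfl; linarith
  set W := (Submodule.span ℝ {G h1, G h2})ᗮ with hW
  have hr2 := (Submodule.span ℝ {G h1, G h2}).finrank_add_finrank_orthogonal
  have hr3 := finrank_span_pair (G h1) (G h2)
  have hW2 : 2 ≤ finrank ℝ W := by rw [hW]; omega
  have hW1 : ∀ w ∈ W, inner ℝ (G h1) w = 0 := fun w hw =>
    Submodule.inner_right_of_mem_orthogonal (Submodule.subset_span (by simp)) hw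
  have hW2' : ∀ w ∈ W, inner ℝ (G h2) w = 0 := fun w hw =>
    Submodule.inner_right_of_mem_orthogonal (Submodule.subset_span (by simp)) hw
  obtain ⟨w0, hw0, hw00⟩ := exists_not_mem_span hW2 0
  have hw0ne : w0 ≠ 0 := by rintro rfl; simp at hw00
  obtain ⟨v, hvW, hv⟩ := Module.Dual.exists_forall_mem_ne_zero_of_forall_exists W
    (ι := Option {h : H // ∃ w ∈ W, inner ℝ (G h) w ≠ 0})
    (fun o => o.elim (innerₗ V w0) (fun h => innerₗ V (G h.1))) (by
      rintro (_ | h)
      · exact ⟨w0, hw0, by simpa using hw0ne⟩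
      · simpa using h.2)
  have hv0 : v ≠ 0 := by
    rintro rfl
    simpa using hv none
  have hvg : ∀ h ∈ H, inner ℝ (G h) v = 0 → ∀ w ∈ W, inner ℝ (G h) w = 0 := by
    intro h hh h0 w hw
    by_contra hne
    exact hv (some ⟨⟨h, hh⟩, w, hw, hne⟩) (by simpa using h0)
  obtain ⟨w', hw', hw'v⟩ := exists_not_mem_span hW2 v
  have hev : ∀ᶠ δ in 𝓝 (0 : ℝ), ∀ h ∈ H, (0 < inner ℝ (G h) v → 0 < inner ℝ (G h) (v + δ • w')) ∧
      (inner ℝ (G h) v < 0 → inner ℝ (G h) (v + δ • w') < 0) := by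
    rw [Finset.eventually_all]
    intro h _
    have hc : Continuous fun δ : ℝ => inner ℝ (G h) (v + δ • w') := by fun_prop
    refine Eventually.and ?_ ?_
    · by_cases hp : 0 < inner ℝ (G h) v
      · exact (continuous_const.continuousAt.eventually_lt (x₀ := (0 : ℝ)) (f := fun _ => (0 : ℝ))
          hc.continuousAt (by simpa using hp)).mono fun δ e _ => e
      · exact Eventually.of_forall fun δ e => absurd e hp
    · by_cases hp : inner ℝ (G h) v < 0
      · exact (hc.continuousAt.eventually_lt (x₀ := (0 : ℝ)) (g := fun _ => (0 : ℝ))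
          continuous_const.continuousAt (by simpa using hp)).mono fun δ e _ => e
      · exact Eventually.of_forall fun δ e => absurd e hp
  obtain ⟨δ, hδ, hδ0⟩ :=
    ((hev.filter_mono nhdsWithin_le_nhds).and (self_mem_nhdsWithin (s := {0}ᶜ))).exists
  have hδ0' : δ ≠ 0 := hδ0
  set z0 : V := ∑ h ∈ H, (if 0 < inner ℝ (G h) v then (1 : ℝ) else 0) • G h with hz0
  have hz0v : inner ℝ z0 v = hh H G v := by
    rw [hz0, sum_inner, hh]
    apply Finset.sum_congr rfl
    intro h _
    rw [real_inner_smul_left]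
    split_ifs with hp
    · rw [one_mul, max_eq_right hp.le]
    · rw [zero_mul, max_eq_left (not_lt.1 hp)]
  have hli : LinearIndependent ℝ ![z0, G h1, G h2] := by
    rw [Fintype.linearIndependent_iff]
    intro g hg
    simp only [Fin.sum_univ_three, Matrix.cons_val_zero, Matrix.cons_val_one,
      Matrix.cons_val] at hg
    have e1 := congrArg (fun x => inner ℝ x v) hg
    simp only [inner_add_left, real_inner_smul_left, hW1 v hvW, hW2' v hvW, hz0v, mul_zero,
      add_zero, inner_zero_left, mul_eq_zero, (hpos v hv0).ne', or_false] at e1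
    rw [e1, zero_smul, zero_add] at hg
    have e2 := congrArg (fun x => inner ℝ x u') hg
    simp only [inner_add_left, real_inner_smul_left, hu'1, mul_zero,
      zero_add, inner_zero_left, mul_eq_zero, hh2u.ne', or_false] at e2
    rw [e2, zero_smul, add_zero, smul_eq_zero] at hg
    have e3 := hg.resolve_right hG1
    intro i
    fin_cases i
    · exact e1
    · exact e3
    · exact e2
  obtain ⟨s1, s2, hs1, hs2, hav⟩ := avoid z0 (G h1) (G h2) hli H a
  let c : κ → ℝ := fun h => (if 0 < inner ℝ (G h) v then (1 : ℝ) else 0) +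
    (if h = h1 then s1 else 0) + (if h = h2 then s2 else 0)
  have hz : z0 + s1 • G h1 + s2 • G h2 = ∑ h ∈ H, c h • G h := by
    simp only [c, add_smul, Finset.sum_add_distrib, ite_smul, zero_smul,
      Finset.sum_ite_eq', hh1, hh2, if_true]
    simp only [hz0, ite_smul, zero_smul]
  have hc : ∀ h, 0 ≤ c h ∧ c h ≤ 1 := by
    intro h
    by_cases e1 : h = h1
    · subst e1
      simp [c, hW1 v hvW, h12, hs1.1.le, hs1.2.le]
    · by_cases e2 : h = h2
      · subst e2
        simp [c, hW2' v hvW, e1, hs2.1.le, hs2.2.le]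
      · simp only [c, e1, e2, if_false, add_zero]
        split_ifs <;> norm_num
  have heq : ∀ w ∈ W, (∀ h ∈ H, (0 < inner ℝ (G h) v → 0 < inner ℝ (G h) w) ∧
      (inner ℝ (G h) v < 0 → inner ℝ (G h) w < 0)) →
      inner ℝ (z0 + s1 • G h1 + s2 • G h2) w = hh H G w := by
    intro w hw hsign
    rw [inner_add_left, inner_add_left, real_inner_smul_left, real_inner_smul_left, hW1 w hw,
      hW2' w hw, mul_zero, mul_zero, add_zero, add_zero, hz0, sum_inner, hh]
    apply Finset.sum_congr rfl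
    intro h hh
    rw [real_inner_smul_left]
    rcases lt_trichotomy 0 (inner ℝ (G h) v) with hp | hp | hp
    · rw [if_pos hp, one_mul, max_eq_right ((hsign h hh).1 hp).le]
    · rw [hvg h hh hp.symm w hw]
      simp
    · rw [if_neg (not_lt.2 hp.le), zero_mul, max_eq_left ((hsign h hh).2 hp).le]
  have hv1W : v + δ • w' ∈ W := W.add_mem hvW (W.smul_mem _ hw')
  have hv1 : ∀ t : ℝ, v + δ • w' ≠ t • v := by
    intro t ht
    apply hw'v
    rw [Submodule.mem_span_singleton]
    refine ⟨(t - 1) / δ, ?_⟩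
    have : δ • w' = (t - 1) • v := by rw [sub_smul, ← ht]; simp
    rw [div_eq_inv_mul, mul_smul, ← this, smul_smul, inv_mul_cancel₀ hδ0', one_smul]
  have hv10 : v + δ • w' ≠ 0 := by simpa using hv1 0
  have p0 := hpos v hv0
  have p1 := hpos _ hv10
  refine ⟨z0 + s1 • G h1 + s2 • G h2, (hh H G v)⁻¹ • v, (hh H G (v + δ • w'))⁻¹ • (v + δ • w'),
    ?_, ?_, ?_, ?_, ?_, ?_, hav⟩
  · intro w
    rw [hz, sum_inner, hh]
    apply Finset.sum_le_sum
    intro h _
    rw [real_inner_smul_left]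
    have := hc h
    rcases le_total 0 (inner ℝ (G h) w) with hp | hp
    · rw [max_eq_right hp]; nlinarith
    · rw [max_eq_left hp]; nlinarith
  · rw [inner_smul_right, heq v hvW fun h _ => ⟨id, id⟩, inv_mul_cancel₀ p0.ne']
  · rw [hh_smul _ _ _ (by positivity), inv_mul_cancel₀ p0.ne']
  · rw [inner_smul_right, heq _ hv1W hδ, inv_mul_cancel₀ p1.ne']
  · rw [hh_smul _ _ _ (by positivity), inv_mul_cancel₀ p1.ne']
  · intro e
    apply hv1 (hh H G (v + δ • w') * (hh H G v)⁻¹)
    rw [mul_smul, e, smul_smul, mul_inv_cancel₀ p1.ne', one_smul]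

end Pool.Agent.Lib.MP_2fa2a2_gt
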