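import Pool.Agent.Lib.MP_2fa2a2_gt.Cauchy
import Pool.Agent.Lib.MP_2fa2a2_gt.Diff
import Pool.Agent.Lib.MP_2fa2a2_gt.Zono

set_option autoImplicit false

open MeasureTheory Set Filter Topology Pointwise Module

namespace Pool.Agent.Lib.MP_2fa2a2_gt

variable {V : Type*} [NormedAddCommGroup V] [InnerProductSpace ℝ V] [FiniteDimensional ℝ V]
  [MeasurableSpace V] [BorelSpace V] {d : ℕ}

/-- Sections through a fixed interior point vary differentiably at a generic normal. -/
theorem section_diff (hd : finrank ℝ V = d + 1) {H : Finset (V × ℝ)}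
    (hb : Bornology.IsBounded (poly H)) {z w p : V} (hz : ‖z‖ = 1) (hw : inner ℝ z w = 0)
    (hp : ∀ h ∈ H, inner ℝ h.1 p < h.2)
    (hav : ∀ h ∈ H, ∀ h' ∈ H, z ∉ Submodule.span ℝ {h.1, h'.1}) :
    ∃ φ : ℝ → ℝ, DifferentiableAt ℝ φ 0 ∧ (∀ δ, 0 ≤ φ δ) ∧ ∀ δ : ℝ,
      (μH[d] (poly H ∩ {y | inner ℝ (z + δ • w) y = inner ℝ (z + δ • w) p})).toReal =
        ‖z + δ • w‖ * φ δ := by
  have hz0 : z ≠ 0 := by rintro rfl; simp at hz
  have := haar_perp hd hz0
  have hzz : inner ℝ z z = 1 := by rw [real_inner_self_eq_norm_sq, hz]; norm_num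
  have hwz : inner ℝ w z = 0 := by rw [real_inner_comm]; exact hw
  let β : H → ℝ := fun h => h.1.2 - inner ℝ h.1.1 p
  have hβ : ∀ h, 0 < β h := fun h => sub_pos.2 (hp h.1 h.2)
  let α : H → (ℝ ∙ z)ᗮ →L[ℝ] ℝ := fun h =>
    (β h)⁻¹ • (innerSL ℝ h.1.1).comp (ℝ ∙ z)ᗮ.subtypeL
  let γ : H → ℝ := fun h => (β h)⁻¹ * inner ℝ h.1.1 z
  let ω : (ℝ ∙ z)ᗮ →L[ℝ] ℝ := (innerSL ℝ w).comp (ℝ ∙ z)ᗮ.subtypeL
  have hα : ∀ h (y : (ℝ ∙ z)ᗮ), α h y = (β h)⁻¹ * inner ℝ h.1.1 (y : V) := fun h y => by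
    simp [α]
  have hω : ∀ y : (ℝ ∙ z)ᗮ, ω y = inner ℝ w (y : V) := fun y => by simp [ω]
  have hpar : ∀ q : V, (∀ y : (ℝ ∙ z)ᗮ, inner ℝ q (y : V) = 0) → q = inner ℝ q z • z := by
    intro q hq
    have h1 := hq ⟨pr z q, pr_mem hz q⟩
    have h2 := perp_inner (z := z) ⟨pr z q, pr_mem hz q⟩
    simp only at h1 h2
    have h3 : inner ℝ (pr z q) (pr z q) = 0 := by
      conv_lhs => enter [2]; rw [pr]
      rw [inner_sub_left, inner_smul_left, h1, h2]
      simp
    rw [inner_self_eq_zero, pr, sub_eq_zero, real_inner_comm] at h3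
    exact h3
  have hmem : ∀ δ (y : (ℝ ∙ z)ᗮ), (∀ h, α h y - δ * (γ h * ω y) ≤ 1) ↔
      p + ((y : V) - (δ * inner ℝ w (y : V)) • z) ∈ poly H := by
    intro δ y
    simp only [poly, mem_ofPred_eq, Subtype.forall]
    refine forall₂_congr fun h hh => ?_
    rw [hα, hω]
    simp only [γ, inner_add_right, inner_sub_right, inner_smul_right]
    have hb := hβ ⟨h, hh⟩
    rw [show (β ⟨h, hh⟩)⁻¹ * inner ℝ h.1 (y : V) - δ * ((β ⟨h, hh⟩)⁻¹ * inner ℝ h.1 z *
      inner ℝ w (y : V)) = (inner ℝ h.1 (y : V) - δ * inner ℝ w (y : V) * inner ℝ h.1 z) /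
      β ⟨h, hh⟩ by field_simp, div_le_one hb]
    simp only [β]
    constructor <;> intro e <;> linarith
  refine ⟨fun δ => (μH[d] : Measure (ℝ ∙ z)ᗮ).real {y | ∀ h, α h y - δ * (γ h * ω y) ≤ 1},
    diff_vol _ α γ ω ?_ ?_ ?_, fun δ => measureReal_nonneg, fun δ => ?_⟩
  · intro h h0
    by_contra hne
    have e := hpar ((β h)⁻¹ • h.1.1) (fun y => by
      have := hα h y
      rw [h0] at this
      rw [real_inner_smul_left, ← this]
      rfl)
    rw [real_inner_smul_left] at e
    apply hav h.1 h.2 h.1 h.2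
    have e2 : z = (γ h)⁻¹ • (β h)⁻¹ • h.1.1 := by
      rw [e, smul_smul, inv_mul_cancel₀ hne, one_smul]
    rw [e2]
    exact Submodule.smul_mem _ _ (Submodule.smul_mem _ _ (Submodule.subset_span (by simp)))
  · intro h h' h0
    by_contra hne
    have e := hpar ((β h)⁻¹ • h.1.1 - (β h')⁻¹ • h'.1.1) (fun y => by
      rw [inner_sub_left, real_inner_smul_left, real_inner_smul_left, ← hα, ← hα, h0, sub_self])
    rw [inner_sub_left, real_inner_smul_left, real_inner_smul_left] at e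
    apply hav h.1 h.2 h'.1 h'.2
    have e2 : z = (γ h - γ h')⁻¹ • ((β h)⁻¹ • h.1.1 - (β h')⁻¹ • h'.1.1) := by
      rw [e, smul_smul, inv_mul_cancel₀ (sub_ne_zero.2 hne), one_smul]
    rw [e2]
    exact Submodule.smul_mem _ _ (Submodule.sub_mem _
      (Submodule.smul_mem _ _ (Submodule.subset_span (by simp)))
      (Submodule.smul_mem _ _ (Submodule.subset_span (by simp))))
  · obtain ⟨R, hR⟩ := hb.exists_norm_le
    rw [isBounded_iff_forall_norm_le]
    refine ⟨R + ‖p‖, fun y hy => ?_⟩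
    have h1 := (hmem 0 y).1 (by simpa using hy)
    have h2 := hR _ h1
    simp only [zero_mul, zero_smul, sub_zero] at h2
    have h3 : ‖(y : V)‖ ≤ ‖p + (y : V)‖ + ‖p‖ := by simpa using norm_sub_le (p + (y : V)) p
    exact h3.trans (by linarith)
  · let c : (ℝ ∙ z)ᗮ := δ • ⟨w, Submodule.mem_orthogonal_singleton_iff_inner_right.2 hw⟩
    have hc : (c : V) = δ • w := rfl
    have hg : ∀ y, gr z c y = (y : V) - (δ * inner ℝ w (y : V)) • z := fun y => by
      rw [gr_apply, hc, real_inner_smul_left]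
    have hS : poly H ∩ {y | inner ℝ (z + δ • w) y = inner ℝ (z + δ • w) p} =
        (fun y => p + gr z c y) '' {y | ∀ h, α h y - δ * (γ h * ω y) ≤ 1} := by
      ext k
      constructor
      · rintro ⟨hk, hk'⟩
        have e : p + gr z c ⟨pr z (k - p), pr_mem hz _⟩ = k := by
          rw [hg]
          simp only [mem_ofPred_eq, inner_add_left, real_inner_smul_left] at hk'
          simp only [pr, inner_sub_right, inner_smul_right, hwz, mul_zero, sub_zero]
          have : δ * (inner ℝ w k - inner ℝ w p) = -(inner ℝ z k - inner ℝ z p) := by linarith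
          rw [this, neg_smul]
          abel
        refine ⟨⟨pr z (k - p), pr_mem hz _⟩, (hmem δ _).2 ?_, e⟩
        rw [← hg, e]
        exact hk
      · rintro ⟨y, hy, rfl⟩
        refine ⟨by simp only [hg]; exact (hmem δ y).1 hy, ?_⟩
        simp only [mem_ofPred_eq, hg, inner_add_left, inner_add_right, inner_sub_right,
          inner_smul_right, real_inner_smul_left, hwz, hzz, perp_inner y]
        ring
    have hn : √(1 + ‖c‖ ^ 2) = ‖z + δ • w‖ := by
      rw [Real.sqrt_eq_iff_mul_self_eq (by positivity) (by positivity), ← sq,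
        norm_add_sq_real, inner_smul_right, hw, hz]
      have : ‖c‖ = ‖δ • w‖ := rfl
      rw [this]
      ring
    rw [hS, meas_gr hd hz, hn, ENNReal.toReal_mul, ENNReal.toReal_ofReal (norm_nonneg _)]
    rfl

theorem core (hd : finrank ℝ V = d + 1) (hd3 : 3 ≤ d) {H : Finset (V × ℝ)}
    (hH : ∀ h ∈ H, ‖h.1‖ = 1) (hb : Bornology.IsBounded (poly H))
    (hi : (interior (poly H)).Nonempty) {T : Set ℝ} (hT : T = {0} ∨ T = univ) {c : V} {r : ℝ}
    (hr : 0 < r)
    (heq : {x : V | ∀ u : V, ‖u‖ = 1 → inner ℝ x u ≤ (μH[d] (pr u '' poly H)).toReal} =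
      (fun y => c + r • y) '' {x : V | x = 0 ∨ ∃ t ∈ T,
        ‖x‖ ≤ (μH[d] (poly H ∩ {y | inner ℝ x y = t})).toReal}) : False := by
  set G := gen d H with hG
  set C := {x : V | x = 0 ∨ ∃ t ∈ T,
        ‖x‖ ≤ (μH[d] (poly H ∩ {y | inner ℝ x y = t})).toReal} with hC
  have hunit : ∀ v : V, v ≠ 0 → ‖(‖v‖⁻¹ : ℝ) • v‖ = 1 := fun v hv => by
    rw [norm_smul]; simp [hv]
  have hsc : ∀ v : V, v ≠ 0 →
      hh H G v = ‖v‖ * (μH[d] (pr (‖v‖⁻¹ • v) '' poly H)).toReal := fun v hv => by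
    rw [cauchy hd hH hb (hunit v hv), ← hG]
    change _ = _ * hh H G _
    rw [hh_smul _ _ _ (by positivity), ← mul_assoc, mul_inv_cancel₀ (by simpa using hv), one_mul]
  have hZ : {x : V | ∀ u : V, ‖u‖ = 1 → inner ℝ x u ≤ (μH[d] (pr u '' poly H)).toReal} =
      {x : V | ∀ v, inner ℝ x v ≤ hh H G v} := by
    ext x
    simp only [mem_ofPred_eq]
    constructor
    · intro h v
      rcases eq_or_ne v 0 with rfl | hv
      · simp [hh]
      · have := h _ (hunit v hv)
        have hn : 0 < ‖v‖ := norm_pos_iff.2 hv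
        rw [inner_smul_right, inv_mul_le_iff₀ hn] at this
        rw [hsc v hv]
        exact this
    · intro h u hu
      rw [cauchy hd hH hb hu]
      exact h u
  rw [hZ] at heq
  have hpos : ∀ v : V, v ≠ 0 → 0 < hh H G v := fun v hv => by
    rw [hsc v hv]
    exact mul_pos (norm_pos_iff.2 hv) (ENNReal.toReal_pos (meas_pr_pos hd (hunit v hv) hi).ne'
      (meas_pr_lt_top hd (hunit v hv) hb).ne)
  have hneg : ∀ v : V, hh H G (-v) = hh H G v := fun v => by
    rcases eq_or_ne v 0 with rfl | hv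
    · simp
    · rw [hsc v hv, hsc _ (neg_ne_zero.2 hv), norm_neg]
      have : pr (‖v‖⁻¹ • -v) = pr (‖v‖⁻¹ • v) := by
        ext y
        simp [pr]
      rw [this]
  have hCneg : ∀ y ∈ C, -y ∈ C := by
    rintro y (rfl | ⟨t, ht, h⟩)
    · left; simp
    · right
      refine ⟨-t, ?_, ?_⟩
      · rcases hT with rfl | rfl
        · simpa using ht
        · trivial
      · simpa [inner_neg_left] using h
  have hc0 : c = 0 := by
    have step : ∀ x : V, (∀ v, inner ℝ x v ≤ hh H G v) →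
        ∀ v, inner ℝ (x + (2 : ℝ) • c) v ≤ hh H G v := by
      intro x hx
      have h1 : -x ∈ {x : V | ∀ v, inner ℝ x v ≤ hh H G v} := fun v => by
        have := hx (-v)
        rwa [hneg, inner_neg_right, ← inner_neg_left] at this
      rw [heq] at h1
      obtain ⟨y, hy, e⟩ := h1
      have h2 : c + r • (-y) ∈ (fun y => c + r • y) '' C := ⟨-y, hCneg y hy, rfl⟩
      rw [← heq] at h2
      have e2 : c + r • (-y) = x + (2 : ℝ) • c := by
        simp only at e
        rw [smul_neg, two_smul, ← neg_neg x, ← e]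
        abel
      rw [e2] at h2
      exact h2
    have hk : ∀ k : ℕ, ∀ v, inner ℝ ((2 * k : ℝ) • c) v ≤ hh H G v := by
      intro k
      induction k with
      | zero =>
        intro v
        simp only [Nat.cast_zero, mul_zero, zero_smul, inner_zero_left]
        exact Finset.sum_nonneg fun _ _ => le_max_left _ _
      | succ k ih =>
        have := step _ ih
        rwa [← add_smul, show (2 * k + 2 : ℝ) = 2 * ((k + 1 : ℕ) : ℝ) by push_cast; ring] at this
    by_contra hc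
    have hcc : 0 < inner ℝ c c := real_inner_self_pos.2 hc
    obtain ⟨k, hk'⟩ := exists_nat_gt (hh H G c / (2 * inner ℝ c c))
    have := hk k c
    rw [real_inner_smul_left] at this
    rw [div_lt_iff₀ (by positivity)] at hk'
    linarith
  subst hc0
  obtain ⟨z, v0, v1, hzZ, hz0, hv0, hz1, hv1, hne, hav⟩ :=
    zono (V := V) (by omega) H G (fun h => h.1) hpos
  have hzC : z ∈ (fun y => (0 : V) + r • y) '' C := heq ▸ hzZ
  obtain ⟨y, hy, e⟩ := hzC
  simp only [zero_add] at e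
  have hy0 : y ≠ 0 := by
    rintro rfl
    rw [← e] at hz0
    simp at hz0
  have hyn : 0 < ‖y‖ := norm_pos_iff.2 hy0
  obtain ⟨t, ht, hyt⟩ := hy.resolve_left hy0
  obtain ⟨u, hu⟩ : ∃ u : V, u = ‖y‖⁻¹ • y := ⟨_, rfl⟩
  have hu1 : ‖u‖ = 1 := hu ▸ hunit y hy0
  have hyu : y = ‖y‖ • u := by rw [hu, smul_smul, mul_inv_cancel₀ hyn.ne', one_smul]
  have hzu : z = (r * ‖y‖) • u := by rw [mul_smul, ← hyu, e]
  have hav' : ∀ h ∈ H, ∀ h' ∈ H, u ∉ Submodule.span ℝ {h.1, h'.1} := fun h hh h' hh' hm =>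
    hav h hh h' hh' (hzu ▸ Submodule.smul_mem _ _ hm)
  obtain ⟨ν, hν⟩ : ∃ ν : V, ν = v0 - v1 := ⟨_, rfl⟩
  have hν0 : ν ≠ 0 := hν ▸ sub_ne_zero.2 hne
  have huv : ∀ v, inner ℝ z v = 1 → inner ℝ u v = (r * ‖y‖)⁻¹ := fun v hv => by
    rw [hzu, real_inner_smul_left] at hv
    exact eq_inv_of_mul_eq_one_right hv
  have huν : inner ℝ u ν = 0 := by rw [hν, inner_sub_right, huv _ hz0, huv _ hz1, sub_self]
  set S := poly H ∩ {k | inner ℝ y k = t} with hS
  have hSpos : μH[d] S ≠ 0 := by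
    intro h0
    rw [h0] at hyt
    simp only [ENNReal.toReal_zero] at hyt
    linarith
  obtain ⟨p, hpS, hp1, hp2⟩ : ∃ p ∈ S, (∀ h ∈ H, inner ℝ h.1 p ≠ h.2) ∧ p ∉ (ℝ ∙ ν) := by
    by_contra hcon
    push Not at hcon
    apply hSpos
    have hsub : S ⊆ (⋃ h ∈ H, S ∩ {k | inner ℝ h.1 k = h.2}) ∪ (ℝ ∙ ν : Submodule ℝ V) := by
      intro k hk
      by_cases h1 : ∀ h ∈ H, inner ℝ h.1 k ≠ h.2
      · exact Or.inr (hcon k hk h1)
      · push Not at h1
        obtain ⟨h, hh, e⟩ := h1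
        left
        simp only [mem_iUnion]
        exact ⟨h, hh, hk, e⟩
    refine measure_mono_null hsub (measure_union_null ?_ ?_)
    · refine (measure_biUnion_null_iff H.countable_toSet).2 fun h hh => ?_
      have ha0 : h.1 ≠ 0 := by
        intro e
        have := hH h hh
        simp [e] at this
      refine meas_codim_two hd (a := h.1) (a' := y) ?_ (fun k hk => ⟨hk.2, hk.1.2⟩)
      rw [LinearIndependent.pair_iff' ha0]
      intro s hs
      apply hav' h hh h hh
      rw [hu, ← hs]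
      exact Submodule.smul_mem _ _ (Submodule.smul_mem _ _ (Submodule.subset_span (by simp)))
    · refine meas_sub_null (ℝ ∙ ν) ?_ 0 (fun k hk => by simpa using hk)
      rw [finrank_span_singleton hν0]
      omega
  have hp : ∀ h ∈ H, inner ℝ h.1 p < h.2 := fun h hh => lt_of_le_of_ne (hpS.1 h hh) (hp1 h hh)
  have hyp : inner ℝ y p = t := hpS.2
  obtain ⟨w, hw, hwν, hwT⟩ : ∃ w : V, inner ℝ u w = 0 ∧ inner ℝ w ν ≠ 0 ∧
      ∀ l δ : ℝ, l * inner ℝ (u + δ • w) p ∈ T := by
    rcases hT with rfl | rfl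
    · have hup : inner ℝ u p = 0 := by
        rw [hu, real_inner_smul_left, hyp, mem_singleton_iff.1 ht, mul_zero]
      refine ⟨inner ℝ p p • ν - inner ℝ p ν • p, ?_, ?_, ?_⟩
      · simp only [inner_sub_right (𝕜 := ℝ) u, inner_smul_right, huν, hup, mul_zero, sub_zero]
      · intro h0
        apply hp2
        rw [inner_sub_left, real_inner_smul_left, real_inner_smul_left] at h0
        have hνν : 0 < inner ℝ ν ν := real_inner_self_pos.2 hν0
        have h1 : inner ℝ (inner ℝ ν ν • p - inner ℝ p ν • ν) (inner ℝ ν ν • p - inner ℝ p ν • ν)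
            = (0 : ℝ) := by
          rw [inner_sub_left, inner_sub_right, inner_sub_right, real_inner_smul_left,
            real_inner_smul_left, real_inner_smul_left, real_inner_smul_left, inner_smul_right,
            inner_smul_right, inner_smul_right, inner_smul_right, real_inner_comm p ν]
          linear_combination inner ℝ ν ν * h0
        rw [inner_self_eq_zero, sub_eq_zero] at h1
        rw [Submodule.mem_span_singleton]
        refine ⟨(inner ℝ ν ν)⁻¹ * inner ℝ p ν, ?_⟩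
        rw [mul_smul, ← h1, smul_smul, inv_mul_cancel₀ hνν.ne', one_smul]
      · intro l δ
        rw [mem_singleton_iff, inner_add_left, real_inner_smul_left, inner_sub_left,
          real_inner_smul_left, real_inner_smul_left, hup, real_inner_comm p ν]
        ring
    · exact ⟨ν, huν, (real_inner_self_pos.2 hν0).ne', fun _ _ => trivial⟩
  obtain ⟨φ, hφd, hφ0, hφ⟩ := section_diff hd hb hu1 hw hp hav'
  have hφC : ∀ δ, φ δ • (u + δ • w) ∈ C := by
    intro δ
    rcases (hφ0 δ).eq_or_lt with h | h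
    · left; rw [← h, zero_smul]
    · right
      refine ⟨_, hwT (φ δ) δ, ?_⟩
      have : {k : V | inner ℝ (φ δ • (u + δ • w)) k = φ δ * inner ℝ (u + δ • w) p} =
          {k | inner ℝ (u + δ • w) k = inner ℝ (u + δ • w) p} := by
        ext k
        simp only [mem_ofPred_eq, real_inner_smul_left, mul_eq_mul_left_iff, h.ne', or_false]
      rw [this, hφ, norm_smul, Real.norm_eq_abs, abs_of_pos h, mul_comm]
  have hφy : ‖y‖ ≤ φ 0 := by
    have h1 := hφ 0
    simp only [zero_smul, add_zero, hu1, one_mul] at h1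
    rw [← h1]
    have : {k : V | inner ℝ u k = inner ℝ u p} = {k | inner ℝ y k = t} := by
      ext k
      simp only [mem_ofPred_eq, hu, real_inner_smul_left, hyp, mul_eq_mul_left_iff,
        (inv_pos.2 hyn).ne', or_false]
    rw [this]
    exact hyt
  have hder : ∀ v, inner ℝ z v = 1 → hh H G v = 1 →
      deriv φ 0 * (r * ‖y‖)⁻¹ + φ 0 * inner ℝ w v = 0 := by
    intro v h1 h2
    have hle : ∀ δ, φ δ * ((r * ‖y‖)⁻¹ + δ * inner ℝ w v) ≤ r⁻¹ := by
      intro δ
      have h3 : (0 : V) + r • (φ δ • (u + δ • w)) ∈ (fun y => (0 : V) + r • y) '' C :=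
        ⟨_, hφC δ, rfl⟩
      rw [← heq] at h3
      have h4 := h3 v
      rw [zero_add, real_inner_smul_left, real_inner_smul_left, inner_add_left,
        real_inner_smul_left, huv v h1, h2] at h4
      rw [inv_eq_one_div r, le_div_iff₀ hr]
      linarith
    have hmax : IsLocalMax (fun δ => φ δ * ((r * ‖y‖)⁻¹ + δ * inner ℝ w v)) 0 := by
      refine Eventually.of_forall fun δ => (hle δ).trans ?_
      simp only [zero_mul, add_zero]
      calc r⁻¹ = ‖y‖ * (r * ‖y‖)⁻¹ := by field_simp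
        _ ≤ φ 0 * (r * ‖y‖)⁻¹ := by gcongr
    have hD : HasDerivAt (fun δ => φ δ * ((r * ‖y‖)⁻¹ + δ * inner ℝ w v))
        (deriv φ 0 * ((r * ‖y‖)⁻¹ + 0 * inner ℝ w v) + φ 0 * (1 * inner ℝ w v)) 0 :=
      hφd.hasDerivAt.mul (((hasDerivAt_id (0 : ℝ)).mul_const _).const_add _)
    have := hmax.hasDerivAt_eq_zero hD
    simpa using this
  have e0 := hder v0 hz0 hv0
  have e1 := hder v1 hz1 hv1
  have e2 : φ 0 * inner ℝ w ν = 0 := by
    rw [hν, inner_sub_right]
    linarith
  rcases mul_eq_zero.1 e2 with h | h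
  · linarith
  · exact hwν h

end Pool.Agent.Lib.MP_2fa2a2_gt
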